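import Pool.Agent.MP_fac573_co.Haus

set_option autoImplicit false

open Set Metric MeasureTheory
open scoped Pointwise Real

namespace Pool.Agent.Results.MP_fac573_co.Perimeter

open Pool.Agent.Fac573

/-- Let `0 < r ≤ t < √3 r` and let `C` be a nonempty finite set of points of the Euclidean plane with
pairwise distances at most `t`. Then the intersection of the closed disks of radius `r` centred at the
points of `C` has non-empty interior, and its perimeter (the one-dimensional Hausdorff measure of its
boundary) is at least `r (2π - 6 arcsin (t / (2r)))`. -/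
theorem result (r t : ℝ) (hr : 0 < r) (hrt : r ≤ t) (ht : t < Real.sqrt 3 * r)
    (C : Finset (EuclideanSpace ℝ (Fin 2))) (hC : C.Nonempty)
    (hdiam : ∀ x ∈ C, ∀ y ∈ C, dist x y ≤ t) :
    (interior (⋂ c ∈ C, closedBall c r)).Nonempty ∧
      ENNReal.ofReal (r * (2 * Real.pi - 6 * Real.arcsin (t / (2 * r)))) ≤
        Measure.hausdorffMeasure (1 : ℝ) (frontier (⋂ c ∈ C, closedBall c r)) := by
  classical
  have ht0 : 0 < t := hr.trans_le hrt
  have h3 : (0 : ℝ) < Real.sqrt 3 := by positivity
  constructor
  · obtain ⟨z, hz⟩ := jung hC ht0 hdiam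
    have hlt : t / Real.sqrt 3 < r := by rw [div_lt_iff₀ h3]; linarith
    refine ⟨z, mem_interior.2 ⟨ball z (r - t / Real.sqrt 3), ?_, isOpen_ball, ?_⟩⟩
    · intro w hw
      rw [mem_ball] at hw
      simp only [mem_iInter, mem_closedBall]
      intro c hc
      have := dist_triangle w z c
      have := hz c hc
      linarith
    · rw [mem_ball, dist_self]; linarith
  · set C' : Finset (EuclideanSpace ℝ (Fin 2)) := C.image (fun c => r⁻¹ • c) with hC'
    have hr' : r ≠ 0 := hr.ne'
    have hball : (⋂ c ∈ C, closedBall c r) = r • (⋂ c ∈ C', closedBall c (1 : ℝ)) := by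
      ext z
      rw [mem_smul_set_iff_inv_smul_mem₀ hr']
      simp only [mem_iInter, mem_closedBall, hC', Finset.mem_image, forall_exists_index, and_imp,
        forall_apply_eq_imp_iff₂]
      have key : ∀ c, dist (r⁻¹ • z) (r⁻¹ • c) = r⁻¹ * dist z c := fun c => by
        rw [dist_smul₀, Real.norm_of_nonneg (by positivity)]
      constructor
      · intro h c hc
        rw [key, inv_mul_le_iff₀ hr, mul_one]; exact h c hc
      · intro h c hc
        have := h c hc
        rwa [key, inv_mul_le_iff₀ hr, mul_one] at this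
    have hdiam' : ∀ x ∈ C', ∀ y ∈ C', dist x y ≤ t / r := by
      intro x hx y hy
      obtain ⟨a, ha, rfl⟩ := Finset.mem_image.1 hx
      obtain ⟨b, hb, rfl⟩ := Finset.mem_image.1 hy
      rw [dist_smul₀, Real.norm_of_nonneg (by positivity), inv_mul_eq_div]
      exact div_le_div_of_nonneg_right (hdiam a ha b hb) hr.le
    have h := main_bound (t := t / r) (by rw [le_div_iff₀ hr]; linarith)
      (by rw [div_lt_iff₀ hr]; exact ht) (hC.image _) hdiam'
    have hfr : frontier (r • (⋂ c ∈ C', closedBall c (1 : ℝ))) =
        r • frontier (⋂ c ∈ C', closedBall c (1 : ℝ)) := by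
      exact ((Homeomorph.smulOfNeZero r hr').image_frontier _).symm
    rw [hball, hfr, Measure.hausdorffMeasure_smul₀ zero_le_one hr']
    have hn : (‖r‖₊ ^ (1 : ℝ)) = Real.toNNReal r := by
      rw [NNReal.rpow_one]
      ext
      rw [coe_nnnorm, Real.norm_of_nonneg hr.le, Real.coe_toNNReal _ hr.le]
    rw [hn, ENNReal.ofReal_mul hr.le]
    change ENNReal.ofReal r * _ ≤ ENNReal.ofReal r * _
    apply mul_le_mul_right
    have e : t / (2 * r) = t / r / 2 := by field_simp
    rw [e]
    exact h

end Pool.Agent.Results.MP_fac573_co.Perimeter
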